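import Pool.Agent.Q7.CF.Stm
import Pool.Agent.Q231.CJ.H90

/-!
# Project CF (helper7), job H90: Hilbert's Theorem 90 for ideals (after `Pool/Agent/Q231/CJ/H90.lean` of helper231)
-/

set_option autoImplicit false

namespace Pool.Agent.Q53.CF.H90

open Polynomial Pool.Agent.Q7.CF
open Pool.Agent.Q231.CJ (tm h90_abs)

section

variable (p r : ℕ) {L : Type} [Field L]

theorem sF_comp (D ζ₁ ζ₂ : L) (h₁ : ζ₁ ^ p = 1) (h₂ : ζ₂ ^ p = 1) (h : (ζ₁ * ζ₂) ^ p = 1) :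
    (sF p D ζ₁ h₁).comp (sF p D ζ₂ h₂) = sF p D (ζ₁ * ζ₂) h := by
  refine AdjoinRoot.algHom_ext ?_
  show sF p D ζ₁ h₁ (sF p D ζ₂ h₂ (YF p D)) = sF p D (ζ₁ * ζ₂) h (YF p D)
  have h1 : sF p D ζ₁ h₁ (algebraMap L (RF p D) ζ₂) = algebraMap L (RF p D) ζ₂ := sF_of p D ζ₁ h₁ (C ζ₂)
  rw [sF_YF, sF_YF, map_mul, sF_YF, h1, map_mul]
  ring

theorem sF_one (D : L) (h : (1 : L) ^ p = 1) : sF p D 1 h = AlgHom.id _ _ := by
  refine AdjoinRoot.algHom_ext ?_
  show sF p D 1 h (YF p D) = YF p D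
  rw [sF_YF, map_one, one_mul]

theorem sF_congr (D : L) {ζ₁ ζ₂ : L} (h : ζ₁ = ζ₂) (h₁ : ζ₁ ^ p = 1) (h₂ : ζ₂ ^ p = 1) : sF p D ζ₁ h₁ = sF p D ζ₂ h₂ := by
  subst h
  rfl

theorem sg_comp_sgi (D ζ : L) (h : ζ ^ p = 1) (i : ℕ) :
    (sg p r D ζ h).comp (sgi p r D ζ h i) = sgi p r D ζ h (i + 1) := by
  have h0 : ∀ i, (ζ ^ i) ^ p = 1 := fun i => by rw [← pow_mul, mul_comm, pow_mul, h, one_pow]
  refine RingHom.ext fun z => Subtype.ext ?_
  rw [RingHom.comp_apply, sg_val]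
  unfold sgi
  rw [sg_val, sg_val]
  have h1 := sF_comp p D ζ (ζ ^ i) h (h0 i) (by rw [← pow_succ']; exact h0 _)
  rw [sF_congr p D (pow_succ' ζ i) (h0 _) (by rw [← pow_succ']; exact h0 _), ← h1]
  rfl

theorem sg_one' (D ζ : L) (h : ζ ^ p = 1) (hζ : ζ = 1) : sg p r D ζ h = RingHom.id _ := by
  refine RingHom.ext fun z => Subtype.ext ?_
  rw [sg_val, sF_congr p D hζ h (one_pow p), sF_one]
  rfl

theorem sgi_zero (D ζ : L) (h : ζ ^ p = 1) : sgi p r D ζ h 0 = RingHom.id _ := by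
  unfold sgi
  exact sg_one' p r D _ _ (pow_zero ζ)

theorem sgi_p (D ζ : L) (h : ζ ^ p = 1) : sgi p r D ζ h p = RingHom.id _ := by
  unfold sgi
  exact sg_one' p r D _ _ h

theorem map_sgi (D ζ : L) (h : ζ ^ p = 1) (i : ℕ) (I : Ideal (BQ p r D)) :
    I.map (sgi p r D ζ h i) = (Ideal.mapHom (sg p r D ζ h))^[i] I := by
  induction i with
  | zero =>
    rw [sgi_zero, Function.iterate_zero, id_eq]
    exact Ideal.map_id I
  | succ i ih =>
    rw [Function.iterate_succ_apply', ← ih, ← sg_comp_sgi]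
    exact (Ideal.map_map (sgi p r D ζ h i) (sg p r D ζ h)).symm

end

theorem h90 : S_DED → S_H90 := by
  intro hDED p r _ _ L _ _ ζ hζ _ D hD I J hI hJ hIJ
  have hdd : IsDedekindDomain (BQ p r D) := (hDED p r L D hD).1
  have hp : 0 < p := (Fact.out (p := p.Prime)).pos
  have hJp : (Ideal.mapHom (sg p r D ζ hζ))^[p] J = J := by
    rw [← map_sgi, sgi_p]
    exact Ideal.map_id J
  have hbot : ∏ j ∈ Finset.range p, (Ideal.mapHom (sg p r D ζ hζ))^[j] J ≠ ⊥ := by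
    rw [← Ideal.zero_eq_bot, Finset.prod_ne_zero_iff]
    intro i _ h0
    -- the map is injective, being of finite order
    have h1 : ∀ i, i ≤ p → (Ideal.mapHom (sg p r D ζ hζ))^[i] J = 0 → False := by
      intro i hi h0
      have h2 : (Ideal.mapHom (sg p r D ζ hζ))^[(p - i) + i] J = 0 := by
        rw [Function.iterate_add_apply, h0, iterate_map_zero]
      rw [Nat.sub_add_cancel hi, hJp] at h2
      exact hJ h2
    rename_i hi
    exact h1 i (Finset.mem_range.1 hi).le h0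
  refine ⟨∑ i ∈ Finset.range p, tm (Ideal.mapHom (sg p r D ζ hζ)) p I J i, ?_, ?_⟩
  · intro h0
    apply hbot
    rw [eq_bot_iff, ← h0]
    have h3 : tm (Ideal.mapHom (sg p r D ζ hζ)) p I J 0 ≤
        ∑ i ∈ Finset.range p, tm (Ideal.mapHom (sg p r D ζ hζ)) p I J i := by
      rw [Ideal.sum_eq_sup]
      exact Finset.le_sup (f := fun i => tm (Ideal.mapHom (sg p r D ζ hζ)) p I J i)
        (Finset.mem_range.2 hp)
    refine le_trans (le_of_eq ?_) h3
    unfold tm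
    rw [Finset.range_zero, Finset.prod_empty, one_mul, Finset.range_eq_Ico]
  · refine h90_abs (Ideal.mapHom (sg p r D ζ hζ)) p hp I J hJp ?_
    simp only [map_sgi] at hIJ
    exact hIJ

end Pool.Agent.Q53.CF.H90
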