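import Pool.Agent.Q7.CF.Stm4

/-!
# From a relation over the p-adic integers to a point

The proof of `Pool/Agent/Q251/CE/FS1.lean` (helper251, `p = 3`) for all primes `p`.
-/

set_option autoImplicit false

namespace Pool.Agent.Q53.CF.GS1

open Polynomial

/-- a multiple of `T'` is an integral polynomial in `T` -/
theorem poly_adj {M : Type} [AddCommGroup M] [Module.Finite ℤ M] (p : ℕ) (T T' : Module.End ℤ M)
    (h1 : T * T' = (p : Module.End ℤ M)) (h2 : T' * T = (p : Module.End ℤ M)) :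
    ∃ (E : ℕ) (g : ℤ[X]), (p : Module.End ℤ M) ^ E * T' = aeval T g := by
  obtain ⟨g, hg, hg0⟩ := LinearMap.exists_monic_and_aeval_eq_zero ℤ T'
  have hc : Commute T T' := by rw [Commute, SemiconjBy, h1, h2]
  set d := g.natDegree with hd
  refine ⟨d, -∑ i ∈ Finset.range d, C (g.coeff i * (p : ℤ) ^ (i + 1)) * X ^ (d - 1 - i), ?_⟩
  have e1 : T' ^ d + ∑ i ∈ Finset.range d, g.coeff i • T' ^ i = 0 := by
    rw [aeval_eq_sum_range, Finset.sum_range_succ, hg.coeff_natDegree, one_smul] at hg0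
    rw [add_comm]
    exact hg0
  have e2 : T ^ d * (T' ^ d + ∑ i ∈ Finset.range d, g.coeff i • T' ^ i) * T' = 0 := by
    rw [e1]; simp
  rw [mul_add, add_mul] at e2
  have e3 : T ^ d * T' ^ d * T' = (p : Module.End ℤ M) ^ d * T' := by rw [← hc.mul_pow, h1]
  rw [e3] at e2
  rw [eq_neg_of_add_eq_zero_left e2, map_neg, map_sum, Finset.mul_sum, Finset.sum_mul]
  congr 1
  refine Finset.sum_congr rfl fun i hi => ?_
  rw [Finset.mem_range] at hi
  have e4 : d = (d - 1 - i) + (i + 1) := by omega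
  have e5 : T ^ d * T' ^ (i + 1) = T ^ (d - 1 - i) * (p : Module.End ℤ M) ^ (i + 1) := by
    rw [e4, pow_add, mul_assoc, ← hc.mul_pow, h1]
    congr 2
    omega
  rw [mul_smul_comm, smul_mul_assoc, mul_assoc, ← pow_succ, e5, map_mul, aeval_C, map_pow, aeval_X,
    map_mul, map_pow]
  have e6 : (algebraMap ℤ (Module.End ℤ M)) (p : ℤ) = (p : Module.End ℤ M) := by simp
  rw [e6, mul_assoc, ← Algebra.smul_def]
  congr 1
  have : Commute (T ^ (d - 1 - i)) ((p : Module.End ℤ M) ^ (i + 1)) := by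
    have : Commute T (p : Module.End ℤ M) := Nat.commute_cast T p
    exact this.pow_pow _ _
  exact this

theorem loc_poly {M N : Type} [AddCommGroup M] [AddCommGroup N] (T : Module.End ℤ M)
    (TN : Module.End ℤ N) (L : M →ₗ[ℤ] N) (h : ∀ x, L (T x) = TN (L x)) (g : ℤ[X]) (x : M) :
    L (aeval T g x) = aeval TN g (L x) := by
  induction g using Polynomial.induction_on' generalizing x with
  | add p q hp hq => simp [hp, hq]
  | monomial n c =>
    simp only [aeval_monomial]
    have hn : ∀ n : ℕ, ∀ x, L ((T ^ n) x) = (TN ^ n) (L x) := by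
      intro n
      induction n with
      | zero => intro x; simp
      | succ n ih =>
        intro x
        rw [pow_succ, pow_succ, Module.End.mul_apply, Module.End.mul_apply, ih, h]
    simp [Module.End.mul_apply, hn]

theorem pow_mul_dvd {M : Type} [AddCommGroup M] (p e : ℕ) (T : Module.End ℤ M)
    (h : ∀ x, ∃ y, (T ^ e) x = (p : ℕ) • y) (K : ℕ) : ∀ x, ∃ y, (T ^ (e * K)) x = (p ^ K : ℕ) • y := by
  induction K with
  | zero => intro x; exact ⟨x, by simp⟩
  | succ K ih =>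
    intro x
    obtain ⟨y, hy⟩ := h x
    obtain ⟨z, hz⟩ := ih y
    refine ⟨z, ?_⟩
    rw [show e * (K + 1) = e * K + e by ring, pow_add, Module.End.mul_apply, hy, map_nsmul, hz,
      smul_smul, pow_succ, mul_comm]

/-- coordinates with respect to independent elements -/
theorem coord {M : Type} [AddCommGroup M] [Module.Finite ℤ M] (r : ℕ) (P : Fin r → M)
    (hP : LinearIndependent ℤ P) :
    ∃ (N : Fin r → ℤ) (f : Fin r → M →ₗ[ℤ] ℤ), (∀ j, N j ≠ 0) ∧ ∀ (m : Fin r → ℤ) (j : Fin r),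
      f j (∑ i, m i • P i) = N j * m j := by
  classical
  set φ : M →ₗ[ℤ] TensorProduct ℤ ℚ M := TensorProduct.mk ℤ ℚ M 1 with hφ
  have hloc : IsLocalizedModule (nonZeroDivisors ℤ) φ :=
    (isLocalizedModule_iff_isBaseChange (nonZeroDivisors ℤ) ℚ φ).mpr
      (TensorProduct.isBaseChange ℤ M ℚ)
  have hl : LinearIndependent ℚ (φ ∘ P) := hP.of_isLocalizedModule ℚ (nonZeroDivisors ℤ) φ
  obtain ⟨g, hg⟩ := LinearMap.exists_leftInverse_of_injective
    (Fintype.linearCombination ℚ (φ ∘ P)) (LinearMap.ker_eq_bot.2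
      (linearIndependent_iff_injective_fintypeLinearCombination.1 hl))
  have hgm : ∀ (m : Fin r → ℤ) (j : Fin r), g (φ (∑ i, m i • P i)) j = m j := by
    intro m j
    have h1 : φ (∑ i, m i • P i) = Fintype.linearCombination ℚ (φ ∘ P) (fun i => (m i : ℚ)) := by
      rw [map_sum, Fintype.linearCombination_apply]
      refine Finset.sum_congr rfl fun i _ => ?_
      rw [map_smul, Function.comp_apply]
      exact (Int.cast_smul_eq_zsmul ℚ (m i) (φ (P i))).symm
    rw [h1]
    have h2 := LinearMap.congr_fun hg (fun i => (m i : ℚ))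
    rw [LinearMap.comp_apply] at h2
    rw [h2]
    rfl
  have : Module.FinitePresentation ℤ M := Module.finitePresentation_of_finite ℤ M
  have hj : ∀ j : Fin r, ∃ (h : M →ₗ[ℤ] ℤ) (s : nonZeroDivisors ℤ),
      (Algebra.linearMap ℤ ℚ) ∘ₗ h =
        s • (((LinearMap.proj j).comp g).restrictScalars ℤ ∘ₗ φ) := by
    intro j
    exact Module.FinitePresentation.exists_lift_of_isLocalizedModule (nonZeroDivisors ℤ)
      (Algebra.linearMap ℤ ℚ) _
  choose h s hs using hj
  refine ⟨fun j => (s j : ℤ), h, fun j => nonZeroDivisors.ne_zero (s j).2, fun m j => ?_⟩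
  have h1 := LinearMap.congr_fun (hs j) (∑ i, m i • P i)
  rw [LinearMap.comp_apply, LinearMap.smul_apply, LinearMap.comp_apply,
    LinearMap.restrictScalars_apply, LinearMap.comp_apply, LinearMap.proj_apply, hgm] at h1
  have h2 : ((h j (∑ i, m i • P i) : ℤ) : ℚ) = ((s j : ℤ) : ℚ) * (m j : ℚ) := by
    rw [← zsmul_eq_mul]
    exact h1
  exact_mod_cast h2

theorem eq_zero_of_dvd (p : ℕ) [Fact p.Prime] (z : ℤ_[p]) (h : ∀ K : ℕ, (p : ℤ_[p]) ^ K ∣ z) : z = 0 := by
  by_contra h0
  obtain ⟨K, hK⟩ := PadicInt.exists_pow_neg_lt p (norm_pos_iff.2 h0)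
  have h1 := (PadicInt.norm_le_pow_iff_mem_span_pow z K).2 (Ideal.mem_span_singleton.2 (h K))
  exact absurd h1 (not_le.2 hK)

end Pool.Agent.Q53.CF.GS1

namespace Pool.Agent.Q53.CF

open Polynomial
open Pool.Agent.Q53.CF.GS1

theorem gs1 : Pool.Agent.Q7.CF.S_GS1 := by
  intro p hpF M _ hM θ θ' hθ ι N _ θN θN' loc hloc hN r P hP a ha H
  classical
  have hp1 : 1 ≤ p - 1 := by
    have := hpF.out.two_le
    omega
  have hp0 : 0 < p := hpF.out.pos
  set e := p - 1 with he
  set T : Module.End ℤ M := θ.toIntLinearMap with hT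
  set T' : Module.End ℤ M := θ'.toIntLinearMap with hT'
  have h3 : ∀ x, (p : Module.End ℤ M) x = (p : ℕ) • x := by
    intro x
    rw [Module.End.natCast_apply]
  have hTe : ∀ n x, (T ^ n) x = θ^[n] x := by
    intro n
    induction n with
    | zero => intro x; simp
    | succ n ih =>
      intro x
      rw [pow_succ, Module.End.mul_apply, ih, Function.iterate_succ_apply]
      rfl
  have h21 : T' * T = (p : Module.End ℤ M) := by
    ext x
    rw [h3]
    exact (hθ x).1
  have h12 : T * T' = (p : Module.End ℤ M) := by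
    ext x
    rw [h3]
    exact (hθ x).2.1
  obtain ⟨E, g, hg⟩ := poly_adj p T T' h12 h21
  have hlin : LinearIndependent ℤ P := by
    rw [Fintype.linearIndependent_iff]
    intro c hc i
    have h1 := hP c (by rw [hc]; exact IsOfFinAddOrder.zero)
    exact congrFun h1 i
  obtain ⟨Nn, f, hN0, hf⟩ := coord r P hlin
  have hft : ∀ j τ, IsOfFinAddOrder τ → f j τ = 0 := by
    intro j τ hτ
    obtain ⟨n, hn, h⟩ := isOfFinAddOrder_iff_nsmul_eq_zero.1 hτ
    have h1 := congrArg (f j) h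
    rw [map_nsmul, map_zero, nsmul_eq_mul, mul_eq_zero] at h1
    rcases h1 with h1 | h1
    · exact absurd (by exact_mod_cast h1) hn.ne'
    · exact h1
  obtain ⟨j₀, hj₀⟩ := Function.ne_iff.1 ha
  have happ : ∀ n i, (p : ℤ_[p]) ^ n ∣ a i - ((a i).appr n : ℤ_[p]) := by
    intro n i
    have h1 := Ideal.mem_span_singleton.1 (PadicInt.appr_spec n (a i))
    exact_mod_cast h1
  set Q : ℕ → M := fun n => ∑ i, ((a i).appr n : ℤ) • P i with hQ
  -- local divisibility
  have hA : ∀ v n, ∃ R : N v, loc v (Q n) = (p ^ n : ℕ) • R := by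
    intro v n
    obtain ⟨m, hm, R, hR⟩ := H v n
    have h1 : ∀ i, ∃ c : ℤ, ((a i).appr n : ℤ) = m i + (p : ℤ) ^ n * c := by
      intro i
      have h2 : (p : ℤ_[p]) ^ n ∣ ((((a i).appr n : ℤ) - m i : ℤ) : ℤ_[p]) := by
        have h3 := dvd_add (happ n i) (hm i)
        have e : a i - ((a i).appr n : ℤ_[p]) + ((m i : ℤ_[p]) - a i) =
            -((((a i).appr n : ℤ) - m i : ℤ) : ℤ_[p]) := by push_cast; ring
        rw [e, dvd_neg] at h3
        exact h3
      rw [PadicInt.pow_p_dvd_int_iff] at h2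
      obtain ⟨c, hc⟩ := h2
      refine ⟨c, ?_⟩
      linarith
    choose c hc using h1
    refine ⟨R + ∑ i, c i • loc v (P i), ?_⟩
    have e0 : Q n = ∑ i, m i • P i + ∑ i, ((p : ℤ) ^ n * c i) • P i := by
      rw [hQ, ← Finset.sum_add_distrib]
      refine Finset.sum_congr rfl fun i _ => ?_
      rw [hc, add_smul]
    have e1 : ∀ g : Fin r → ℤ, loc v (∑ i, g i • P i) = ∑ i, g i • loc v (P i) := by
      intro g
      rw [map_sum]
      exact Finset.sum_congr rfl fun i _ => map_zsmul _ _ _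
    rw [e0, map_add, e1, e1, hR, smul_add, Finset.smul_sum]
    congr 1
    refine Finset.sum_congr rfl fun i _ => ?_
    rw [mul_smul]
    have : (p : ℤ) ^ n = ((p ^ n : ℕ) : ℤ) := by push_cast; rfl
    rw [this, natCast_zsmul]
  -- bounded divisibility
  have hB : ∃ K, ∀ n, K ≤ n → ∀ y τ, IsOfFinAddOrder τ → Q n ≠ (p ^ K : ℕ) • y + τ := by
    by_contra hcon
    push Not at hcon
    have h1 : (Nn j₀ : ℤ_[p]) * a j₀ = 0 := by
      refine eq_zero_of_dvd p _ fun K => ?_
      obtain ⟨n, hn, y, τ, hτ, h⟩ := hcon K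
      have h2 := congrArg (f j₀) h
      rw [map_add, hft _ _ hτ, add_zero, map_nsmul, hQ] at h2
      simp only [] at h2
      rw [hf] at h2
      have h3 : (Nn j₀ : ℤ_[p]) * ((a j₀).appr n : ℤ_[p]) = (p : ℤ_[p]) ^ K * (f j₀ y : ℤ_[p]) := by
        rw [nsmul_eq_mul] at h2
        exact_mod_cast congrArg (fun t : ℤ => (t : ℤ_[p])) h2
      have h4 : (p : ℤ_[p]) ^ K ∣ a j₀ - ((a j₀).appr n : ℤ_[p]) :=
        (pow_dvd_pow _ hn).trans (happ n j₀)
      have e : (Nn j₀ : ℤ_[p]) * a j₀ = (Nn j₀ : ℤ_[p]) * (a j₀ - ((a j₀).appr n : ℤ_[p])) +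
          (p : ℤ_[p]) ^ K * (f j₀ y : ℤ_[p]) := by
        rw [← h3]; ring
      rw [e]
      exact dvd_add (h4.mul_left _) (Dvd.intro _ rfl)
    rcases mul_eq_zero.1 h1 with h2 | h2
    · exact hN0 j₀ (by exact_mod_cast h2)
    · exact hj₀ h2
  obtain ⟨K, hK⟩ := hB
  set n := e * K * (E + 1) + 1 + K with hn
  set S : ℕ → Prop := fun k => ∃ x τ, IsOfFinAddOrder τ ∧ Q n = (T ^ k) x + τ with hS
  have hSb : ∀ k, S k → k < e * K := by
    rintro k ⟨x, τ, hτ, h⟩
    by_contra hlt
    push Not at hlt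
    obtain ⟨y, hy⟩ := pow_mul_dvd p e T (fun x => by
      obtain ⟨y, hy⟩ := (hθ x).2.2
      exact ⟨y, by rw [hTe]; exact hy⟩) K ((T ^ (k - e * K)) x)
    refine hK n (by omega) y τ hτ ?_
    rw [h, ← hy, ← Module.End.mul_apply, ← pow_add]
    congr 4
    omega
  have hS0 : S 0 := ⟨Q n, 0, IsOfFinAddOrder.zero, by simp⟩
  set k := Nat.findGreatest S (e * K) with hk
  have hSk : S k := Nat.findGreatest_spec (m := 0) (Nat.zero_le _) hS0
  have hSk1 : ¬ S (k + 1) := by
    intro h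
    have h1 := Nat.le_findGreatest (hSb _ h).le h
    omega
  obtain ⟨x, τ, hτ, hx⟩ := hSk
  have hk2 : k < e * K := hSb k ⟨x, τ, hτ, hx⟩
  refine ⟨x, ?_, ?_⟩
  · intro y τ' hτ' hxy
    apply hSk1
    refine ⟨y, (T ^ k) τ' + τ, ?_, ?_⟩
    · exact ((T ^ k).toAddMonoidHom.isOfFinAddOrder hτ').add hτ
    · rw [hx, hxy, map_add, pow_succ, Module.End.mul_apply, ← add_assoc]
      rfl
  · intro v
    obtain ⟨R, hR⟩ := hA v n
    set TN : Module.End ℤ (N v) := (θN v).toIntLinearMap with hTN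
    set L : M →ₗ[ℤ] N v := (loc v).toIntLinearMap with hL
    have h1 := loc_poly T TN L (fun x => hloc v x) (g ^ k) (Q n)
    have hc : Commute ((p : Module.End ℤ M) ^ E * T') T := by
      rw [Commute, SemiconjBy, mul_assoc, h21, ← mul_assoc]
      have : Commute T ((p : Module.End ℤ M) ^ E) := (Nat.commute_cast T p).pow_right E
      rw [this.eq, mul_assoc, h12]
    have h2 : aeval T (g ^ k) (Q n) = (p ^ ((E + 1) * k) : ℕ) • x + aeval T (g ^ k) τ := by
      rw [hx, map_add]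
      congr 1
      rw [map_pow, ← hg, ← Module.End.mul_apply, ← hc.mul_pow, mul_assoc, h21, ← pow_succ, ← pow_mul]
      have : ∀ j : ℕ, ((p : Module.End ℤ M) ^ j) x = (p ^ j : ℕ) • x := by
        intro j
        induction j with
        | zero => simp
        | succ j ih => rw [pow_succ', Module.End.mul_apply, ih, h3, smul_smul, pow_succ']
      exact this _
    have h4 : (p ^ ((E + 1) * k) : ℕ) • loc v x + loc v (aeval T (g ^ k) τ) =
        (p ^ n : ℕ) • aeval TN (g ^ k) R := by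
      have e1 : L (Q n) = (p ^ n : ℕ) • R := hR
      rw [h2, e1, map_add, map_nsmul, map_nsmul] at h1
      exact h1
    have hτ1 : IsOfFinAddOrder (loc v (aeval T (g ^ k) τ)) :=
      (loc v).isOfFinAddOrder ((aeval T (g ^ k)).toAddMonoidHom.isOfFinAddOrder hτ)
    obtain ⟨s, hs⟩ : ∃ s, n = (E + 1) * k + (s + 1) := by
      refine ⟨n - (E + 1) * k - 1, ?_⟩
      have : (E + 1) * k ≤ e * K * (E + 1) := by nlinarith
      omega
    have h5 : (p ^ ((E + 1) * k) : ℕ) • (loc v x - (p ^ (s + 1) : ℕ) • aeval TN (g ^ k) R) =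
        -loc v (aeval T (g ^ k) τ) := by
      rw [smul_sub, smul_smul, ← pow_add, ← hs, ← h4]
      abel
    have h6 : IsOfFinAddOrder (loc v x - (p ^ (s + 1) : ℕ) • aeval TN (g ^ k) R) := by
      have h7 : IsOfFinAddOrder ((p ^ ((E + 1) * k) : ℕ) •
          (loc v x - (p ^ (s + 1) : ℕ) • aeval TN (g ^ k) R)) := by
        rw [h5]
        exact hτ1.neg
      rcases isOfFinAddOrder_nsmul.1 h7 with h8 | h8
      · exact h8
      · exact absurd h8 (by positivity)
    refine ⟨θN' v ((p ^ s : ℕ) • aeval TN (g ^ k) R), _, h6, ?_⟩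
    rw [hN, smul_smul, ← pow_succ']
    abel

end Pool.Agent.Q53.CF
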