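import Mathlib

/-!
# Values `2 n² + 2 n + 2` of binary forms `2 m² u² + 2 B u w + 2 C w²`

The identity: with `κ = m (2 i + 1) - B w` and `u κ = C w² - (i² + i + 1)` one has
`2 m² u² + 2 B u w + 2 C w² = 2 n² + 2 n + 2`, `n = m u + i`.
-/

set_option autoImplicit false

namespace Pool.Agent.Q53.CF

/-- there are `κ ≠ 0`, `w`, `i`, `u` as in the identity -/
def Sol (m B C : ℤ) : Prop :=
  ∃ κ w i u : ℤ, κ = m * (2 * i + 1) - B * w ∧ u * κ = C * w ^ 2 - (i ^ 2 + i + 1)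

theorem identity {m B C κ w i u : ℤ} (h1 : κ = m * (2 * i + 1) - B * w)
    (h2 : u * κ = C * w ^ 2 - (i ^ 2 + i + 1)) :
    u ^ 2 * (2 * m ^ 2) + w ^ 2 * (2 * C) + 2 * (u * w * B) =
      2 * (m * u + i) ^ 2 + 2 * (m * u + i) + 2 := by
  subst h1
  linear_combination (-2) * h2

/-- the case of coprime `m` and `B` -/
theorem sol_coprime {m B C : ℤ} (h : IsCoprime m B) : Sol m B C := by
  rcases Int.even_or_odd m with hm | hm
  · have hB : Odd B := by
      rw [← Int.not_even_iff_odd]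
      intro hB
      have h2 := h.isUnit_of_dvd' hm.two_dvd hB.two_dvd
      rw [Int.isUnit_iff] at h2
      omega
    have h2 : IsCoprime (2 * m) B := by
      refine IsCoprime.mul_left ?_ h
      obtain ⟨k, hk⟩ := hB
      exact ⟨-k, 1, by rw [hk]; ring⟩
    obtain ⟨a, b, hab⟩ := h2
    refine ⟨1, -b * (1 - m), a * (1 - m),
      C * (-b * (1 - m)) ^ 2 - ((a * (1 - m)) ^ 2 + a * (1 - m) + 1), ?_, by ring⟩
    linear_combination (m - 1) * hab
  · have h2 : IsCoprime m (2 * B) := by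
      refine IsCoprime.mul_right ?_ h
      obtain ⟨k, hk⟩ := hm
      exact ⟨1, -k, by rw [hk]; ring⟩
    obtain ⟨a, b, hab⟩ := h2
    obtain ⟨k, hk⟩ := hm
    have ha : Odd a := by
      rw [← Int.not_even_iff_odd]
      rintro ⟨c, hc⟩
      rw [hc] at hab
      have : 2 * (c * m + b * B) = 1 := by linarith
      omega
    obtain ⟨i, hi⟩ := ha
    refine ⟨1, -(2 * b), i, C * (-(2 * b)) ^ 2 - (i ^ 2 + i + 1), ?_, by ring⟩
    rw [← hi]
    linear_combination (-1) * hab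

/-- one step of the finite check -/
def test (m B C : ℤ) (p : ℤ × ℤ) : Bool :=
  decide ((p.1 + B * p.2 - m) % (2 * m) = 0) &&
    decide ((C * p.2 ^ 2 - (((p.1 + B * p.2 - m) / (2 * m)) ^ 2 + (p.1 + B * p.2 - m) / (2 * m) + 1))
      % p.1 = 0)

/-- the list of the pairs `(κ, w)` works for `B`, `C` -/
def check (m : ℤ) (L : List (ℤ × ℤ)) (B C : ℤ) : Bool := L.any (test m B C)

/-- the check depends on residue classes only -/
theorem sol_of_check {m N B C : ℤ} {L : List (ℤ × ℤ)} (hm : 0 < m) (hL : ∀ p ∈ L, p.1 ∣ N)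
    (h : check m L (B % (2 * m * N)) (C % N) = true) : Sol m B C := by
  unfold check at h
  rw [List.any_eq_true] at h
  obtain ⟨⟨κ, w⟩, hp, ht⟩ := h
  unfold test at ht
  rw [Bool.and_eq_true, decide_eq_true_eq, decide_eq_true_eq] at ht
  obtain ⟨h1, h2⟩ := ht
  simp only at h1 h2
  obtain ⟨a, ha⟩ : ∃ a, a = κ + B % (2 * m * N) * w - m := ⟨_, rfl⟩
  rw [← ha] at h1 h2
  obtain ⟨j, hj⟩ : ∃ j, a = 2 * m * j := Int.dvd_of_emod_eq_zero h1
  have hj' : a / (2 * m) = j := by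
    rw [hj]
    exact Int.mul_ediv_cancel_left _ (by omega)
  rw [hj'] at h2
  obtain ⟨q, hq⟩ : ∃ q, q = B / (2 * m * N) := ⟨_, rfl⟩
  obtain ⟨r, hr⟩ : ∃ r, r = C / N := ⟨_, rfl⟩
  have hB : B = B % (2 * m * N) + 2 * m * N * q := by rw [hq]; exact (Int.emod_add_mul_ediv _ _).symm
  have hC : C = C % N + N * r := by rw [hr]; exact (Int.emod_add_mul_ediv _ _).symm
  obtain ⟨B0, hB0⟩ : ∃ B0, B0 = B % (2 * m * N) := ⟨_, rfl⟩
  obtain ⟨C0, hC0⟩ : ∃ C0, C0 = C % N := ⟨_, rfl⟩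
  rw [← hB0] at hB ha
  rw [← hC0] at hC h2
  obtain ⟨N', hN'⟩ := hL _ hp
  simp only at hN'
  obtain ⟨e, he⟩ : ∃ e, C0 * w ^ 2 - (j ^ 2 + j + 1) = κ * e := Int.dvd_of_emod_eq_zero h2
  refine ⟨κ, w, j + N * q * w, e + N' * r * w ^ 2 - (2 * j * (N' * q * w) +
    κ * (N' * q * w) ^ 2 + N' * q * w), ?_, ?_⟩
  · rw [hB]
    have h3 : κ = 2 * m * j + m - B0 * w := by rw [← hj, ha]; ring
    linear_combination h3
  · rw [hC, hN']
    linear_combination (-1) * he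

/-- the finite check for `m = 2` -/
def L2 : List (ℤ × ℤ) := [(1, -1), (-1, -1), (2, -1), (4, -1), (-4, -1)]

theorem fin2 : ∀ B ∈ List.range 16, ∀ C ∈ List.range 4, C % 2 = 1 →
    check 2 L2 (B : ℤ) (C : ℤ) = true := by decide +kernel

end Pool.Agent.Q53.CF
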