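import Pool.Agent.Q53.CF.Arith

/-!
# The finite checks for `m = 2, 3, 4, 5, 6, 9`
-/

set_option autoImplicit false

namespace Pool.Agent.Q53.CF

def L3 : List (ℤ × ℤ) := [(3, -2), (-3, -2), (9, -2)]

def L4 : List (ℤ × ℤ) := [(1, -1), (-1, -1), (2, -1), (-2, -1), (1, -3), (-1, -3), (4, -1),
  (12, -3), (8, -1), (-8, -1), (8, -7), (-8, -7)]

def L5 : List (ℤ × ℤ) := [(1, -2), (-1, -2), (1, -4), (-1, -4), (5, -2), (15, -6), (-5, -2),
  (-15, -6), (15, -12), (5, -4), (-15, -12)]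

def L6 : List (ℤ × ℤ) := [(3, -1), (-3, -1), (6, -1), (-6, -1), (3, -5), (-3, -5), (12, -1),
  (-12, -1), (12, -7), (-12, -7), (9, -1), (-9, -1), (18, -1), (36, -1), (-36, -1)]

def L9 : List (ℤ × ℤ) := [(3, -2), (-3, -2), (3, -4), (-3, -4), (9, -2), (-9, -2), (9, -4),
  (-9, -8), (-9, -4), (3, -8), (-3, -8), (9, -8), (27, -2), (-27, -4), (27, -8)]

theorem fin3 : ∀ B ∈ List.range 18, ∀ C ∈ [1, 3, 4, 7],
    check 3 L3 ((3 * B : ℕ) : ℤ) ((C : ℕ) : ℤ) = true := by decide +kernel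

theorem fin4 : ∀ B ∈ List.range 192, ∀ C ∈ List.range 12,
    check 4 L4 (B : ℤ) ((2 * C + 1 : ℕ) : ℤ) = true := by decide +kernel

theorem fin5 : ∀ B ∈ List.range 150, ∀ C ∈ List.range 15, C % 5 ≠ 0 →
    check 5 L5 (B : ℤ) (C : ℤ) = true := by decide +kernel

theorem fin6 : ∀ B ∈ List.range 144, ∀ C ∈ List.range 36, C % 2 = 1 → C % 9 ∈ [1, 3, 4, 7] →
    check 6 L6 ((3 * B : ℕ) : ℤ) (C : ℤ) = true := by decide +kernel

theorem fin9 : ∀ B ∈ List.range 162, ∀ C ∈ List.range 27, C % 9 ∈ [1, 3, 4, 7] →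
    check 9 L9 ((3 * B : ℕ) : ℤ) (C : ℤ) = true := by decide +kernel

end Pool.Agent.Q53.CF
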