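import Pool.Agent.Q53.CF.Arith

/-!
# The finite checks for `m = 10, 18`
-/

set_option autoImplicit false

namespace Pool.Agent.Q53.CF

def L10 : List (ℤ × ℤ) := [(1, -1), (-1, -1), (2, -1), (-2, -1), (1, -3), (-1, -3), (2, -3),
  (-2, -3), (1, -7), (-1, -7), (1, -9), (-1, -9), (4, -1), (-4, -1), (4, -3), (-4, -3), (12, -3),
  (-12, -3), (12, -9), (-12, -9), (5, -1), (-5, -1), (10, -1), (15, -3), (-15, -3), (30, -3),
  (-10, -1), (5, -3), (-5, -3), (-30, -3), (15, -9), (-15, -9), (20, -1), (-20, -1), (60, -27),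
  (-60, -27), (5, -7), (-5, -7), (30, -9), (20, -3), (-20, -3), (20, -9), (-20, -9), (10, -3),
  (60, -3), (-60, -3), (5, -9), (-5, -9), (-30, -9), (15, -21), (-15, -21), (60, -9), (-60, -9),
  (20, -13), (-20, -13)]

def L18 : List (ℤ × ℤ) := [(3, -1), (-3, -1), (6, -1), (-6, -1), (3, -5), (-3, -5), (6, -5),
  (-6, -5), (3, -7), (-3, -7), (3, -11), (-3, -11), (12, -1), (-12, -1), (12, -7), (-12, -7),
  (9, -1), (-9, -1), (18, -1), (-18, -1), (9, -5), (-9, -5), (12, -5), (-12, -5), (12, -13),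
  (-12, -13), (18, -5), (9, -7), (-9, -7), (-18, -7), (9, -17), (-9, -17), (36, -1), (-36, -1),
  (36, -7), (-36, -7), (-18, -5), (6, -7), (-6, -7), (18, -7), (9, -11), (-9, -11), (3, -13),
  (-3, -13), (9, -13), (-9, -13), (3, -17), (-3, -17), (36, -5), (-36, -5), (36, -25), (-36, -25),
  (36, -13), (-36, -13), (12, -17), (-12, -17), (36, -17), (-36, -17), (12, -25), (-12, -25),
  (27, -1), (-27, -1), (54, -1), (-54, -5), (54, -7), (27, -11), (-27, -11), (27, -13), (-27, -13),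
  (108, -1), (-108, -1), (108, -5), (-108, -5), (108, -25), (-108, -25)]

/-- the first half of the test -/
def test1 (m B : ℤ) (p : ℤ × ℤ) : Bool := decide ((p.1 + B * p.2 - m) % (2 * m) = 0)

/-- the second half of the test -/
def test2 (m B C : ℤ) (p : ℤ × ℤ) : Bool :=
  decide ((C * p.2 ^ 2 - (((p.1 + B * p.2 - m) / (2 * m)) ^ 2 + (p.1 + B * p.2 - m) / (2 * m) + 1))
      % p.1 = 0)

/-- the test for one `B` and a list of `C` -/
def checks (m : ℤ) (L : List (ℤ × ℤ)) (B : ℤ) (Cs : List ℤ) : Bool :=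
  let L' := L.filter (test1 m B)
  Cs.all fun C => L'.any (test2 m B C)

theorem check_of_checks {m B : ℤ} {L : List (ℤ × ℤ)} {Cs : List ℤ} (h : checks m L B Cs = true)
    {C : ℤ} (hC : C ∈ Cs) : check m L B C = true := by
  unfold checks at h
  simp only [List.all_eq_true, List.any_eq_true, List.mem_filter] at h
  obtain ⟨p, ⟨hp, h1⟩, h2⟩ := h C hC
  unfold check
  rw [List.any_eq_true]
  refine ⟨p, hp, ?_⟩
  unfold test
  unfold test1 at h1
  unfold test2 at h2
  rw [h1, h2]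
  rfl

/-- odd numbers below 60 prime to 5 -/
def C10 : List ℤ := [1, 3, 7, 9, 11, 13, 17, 19, 21, 23, 27, 29, 31, 33, 37, 39, 41, 43, 47, 49, 51,
  53, 57, 59]

/-- odd numbers below 108 with the residues 1, 3, 4, 7 modulo 9 -/
def C18 : List ℤ := [1, 3, 7, 13, 19, 21, 25, 31, 37, 39, 43, 49, 55, 57, 61, 67, 73, 75, 79, 85, 91,
  93, 97, 103]

theorem fin10' : ∀ B ∈ List.range 1200, checks 10 L10 (B : ℤ) C10 = true := by decide +kernel

theorem fin18' : ∀ B ∈ List.range 1296, checks 18 L18 ((3 * B : ℕ) : ℤ) C18 = true := by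
  decide +kernel

end Pool.Agent.Q53.CF
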