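import Pool.Agent.Q7.CF.Stm
import Pool.Agent.Q123.CJ.MV

/-!
# Project CF (helper7), job MV: moving, and the class of an ideal (after `Pool/Agent/Q123/CJ/MV.lean` of helper123)
-/

set_option autoImplicit false

namespace Pool.Agent.Q53.CF.MV

open Pool.Agent.Q7.CF

section

variable {R : Type} [CommRing R] [IsDedekindDomain R]

/-- the numerator and the denominator of a quotient which is a unit at `P` -/
theorem unit_at {P Q : Ideal R} (hP : P.IsMaximal) (hP0 : P ≠ ⊥) (hQP : ¬ Q ≤ P) {x : R}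
    (hx : P * Q = Ideal.span {x}) (hx0 : x ≠ 0) {a b : R} (ha : a ≠ 0) (hb : b ≠ 0) {I J : Ideal R}
    (h : Ideal.span {a} * I = Ideal.span {b} * J) (hI : ¬ I ≤ P) (hJ : ¬ J ≤ P) :
    ∃ a' b' : R, a' ∉ P ∧ b' ∉ P ∧ Ideal.span {a'} * I = Ideal.span {b'} * J := by
  have hPp : Prime P := Ideal.prime_of_isPrime hP0 hP.isPrime
  have hsa : Ideal.span {a} ≠ (0 : Ideal R) := by
    rw [Ideal.zero_eq_bot, Ne, Ideal.span_singleton_eq_bot]
    exact ha
  have hsb : Ideal.span {b} ≠ (0 : Ideal R) := by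
    rw [Ideal.zero_eq_bot, Ne, Ideal.span_singleton_eq_bot]
    exact hb
  obtain ⟨m, A, hA, ha1⟩ := WfDvdMonoid.max_power_factor hsa hPp.irreducible
  obtain ⟨n, B, hB, hb1⟩ := WfDvdMonoid.max_power_factor hsb hPp.irreducible
  have hI' : ¬ P ∣ I := fun h' => hI (Ideal.dvd_iff_le.1 h')
  have hJ' : ¬ P ∣ J := fun h' => hJ (Ideal.dvd_iff_le.1 h')
  have hAI : ¬ P ∣ A * I := fun h' => (hPp.dvd_or_dvd h').elim hA hI'
  have hBJ : ¬ P ∣ B * J := fun h' => (hPp.dvd_or_dvd h').elim hB hJ'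
  have hmn : m = n := by
    rw [ha1, hb1, mul_assoc, mul_assoc] at h
    rcases lt_trichotomy m n with h1 | h1 | h1
    · exfalso
      obtain ⟨k, rfl⟩ : ∃ k, n = m + (k + 1) := ⟨n - m - 1, by omega⟩
      rw [pow_add, mul_assoc] at h
      have h2 := mul_left_cancel₀ (pow_ne_zero m hPp.ne_zero) h
      refine hAI ?_
      rw [h2, pow_succ', mul_assoc]
      exact dvd_mul_right _ _
    · exact h1
    · exfalso
      obtain ⟨k, rfl⟩ : ∃ k, m = n + (k + 1) := ⟨m - n - 1, by omega⟩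
      rw [pow_add, mul_assoc] at h
      have h2 := mul_left_cancel₀ (pow_ne_zero n hPp.ne_zero) h
      refine hBJ ?_
      rw [← h2, pow_succ', mul_assoc]
      exact dvd_mul_right _ _
  subst hmn
  have hQm : ¬ Q ^ m ≤ P := by
    intro h1
    exact hQP (hP.isPrime.le_of_pow_le h1)
  obtain ⟨z, hz, hzP⟩ := Set.not_subset.1 hQm
  obtain ⟨Z, hZ⟩ := Ideal.dvd_iff_le.2 ((Ideal.span_singleton_le_iff_mem (I := Q ^ m)).2 hz)
  have hZP : ¬ P ∣ Z := by
    intro h1
    refine hzP ?_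
    have h2 : Ideal.span {z} ≤ P := by
      rw [hZ]
      exact Ideal.mul_le_right.trans (Ideal.dvd_iff_le.1 h1)
    exact h2 (Ideal.mem_span_singleton_self z)
  have hxm : P ^ m * Q ^ m = Ideal.span {x ^ m} := by
    rw [← mul_pow, hx, Ideal.span_singleton_pow]
  have hxm0 : x ^ m ≠ 0 := pow_ne_zero m hx0
  have hsx : Ideal.span {x ^ m} ≠ (0 : Ideal R) := by
    rw [Ideal.zero_eq_bot, Ne, Ideal.span_singleton_eq_bot]
    exact hxm0
  have key : ∀ {c : R} {C : Ideal R}, Ideal.span {c} = P ^ m * C → ¬ P ∣ C → ∃ c' : R, c * z = x ^ m * c' ∧ c' ∉ P := by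
    intro c C hc hC
    have h1 : Ideal.span {c * z} = Ideal.span {x ^ m} * (C * Z) := by
      rw [← Ideal.span_singleton_mul_span_singleton, hc, hZ, ← hxm]
      ring
    have h2 : c * z ∈ Ideal.span {x ^ m} := by
      have h3 : Ideal.span {c * z} ≤ Ideal.span {x ^ m} := by
        rw [h1]
        exact Ideal.mul_le_left
      exact h3 (Ideal.mem_span_singleton_self _)
    obtain ⟨c', hc'⟩ := Ideal.mem_span_singleton.1 h2
    refine ⟨c', hc', fun h3 => ?_⟩
    have h4 : Ideal.span {c'} = C * Z := by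
      rw [hc', ← Ideal.span_singleton_mul_span_singleton] at h1
      exact mul_left_cancel₀ hsx h1
    have h5 : P ∣ C * Z := by
      rw [← h4, Ideal.dvd_iff_le, Ideal.span_singleton_le_iff_mem]
      exact h3
    exact (hPp.dvd_or_dvd h5).elim hC hZP
  obtain ⟨a', ha', haP⟩ := key ha1 hA
  obtain ⟨b', hb', hbP⟩ := key hb1 hB
  refine ⟨a', b', haP, hbP, ?_⟩
  have h1 : Ideal.span {x ^ m} * (Ideal.span {a'} * I) = Ideal.span {x ^ m} * (Ideal.span {b'} * J) := by
    rw [← mul_assoc, ← mul_assoc, Ideal.span_singleton_mul_span_singleton, Ideal.span_singleton_mul_span_singleton,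
      ← ha', ← hb', ← Ideal.span_singleton_mul_span_singleton, ← Ideal.span_singleton_mul_span_singleton,
      mul_right_comm, h, mul_right_comm]
  exact mul_left_cancel₀ hsx h1

end

theorem mv (hDED : S_DED) (hNMM : S_NMM) (hNMP : S_NMP) : S_MV := by
  intro p r _ _ L _ _ D hD
  have hdd : IsDedekindDomain (BQ p r D) := (hDED p r L D hD).1
  obtain ⟨n1, n2, n2', n3, n4, n4', n5, n6, n7, n8, n9, n10, n11, n12, n13⟩ := hNMM p r L D hD
  refine ⟨fun I hI => ?_, fun I J hI hJ hIJ hnI hnJ => ?_⟩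
  · obtain ⟨J, a, b, hJ, ha, hb, h, h1, h2⟩ := Pool.Agent.Q123.CJ.move n5 n6 n7 n8 hI
    exact ⟨J, hJ, ⟨a, b, ha, hb, h⟩, h1, h2⟩
  · obtain ⟨a, b, ha, hb, h⟩ := hIJ
    have hI1 : ¬ I ≤ t1 p r D := fun h' => hnI ((n3 I hI).1.2 h')
    have hJ1 : ¬ J ≤ t1 p r D := fun h' => hnJ ((n3 J hJ).1.2 h')
    have hx0 : vv p r D ≠ 0 := by
      intro h0
      rw [h0, Ideal.span_singleton_eq_bot.2 rfl] at n10
      rcases mul_eq_zero.1 n10 with h' | h'
      · exact n7 h'
      · exact n8 ((pow_eq_zero_iff (Nat.one_le_iff_ne_zero.1 (Ok.h1 (p := p) (r := r)))).1 h')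
    have hQP : ¬ t2 p r D ^ r ≤ t1 p r D := by
      intro h1
      have h2 : t2 p r D ≤ t1 p r D := n5.isPrime.le_of_pow_le h1
      exact n9 (n6.eq_of_le n5.ne_top h2).symm
    obtain ⟨a', b', ha', hb', h'⟩ := unit_at n5 n7 hQP n10 hx0 ha hb h hI1 hJ1
    have hne : ∀ c : BQ p r D, c ∉ t1 p r D → Ideal.span {c} ≠ (⊥ : Ideal (BQ p r D)) := by
      intro c hc h0
      rw [Ideal.span_singleton_eq_bot] at h0
      refine hc ?_
      rw [h0]
      exact Ideal.zero_mem _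
    obtain ⟨s1, hs1, e1⟩ := hNMP p r L D hD a' ha'
    obtain ⟨s2, hs2, e2⟩ := hNMP p r L D hD b' hb'
    have h1 := congrArg (nm p r D) h'
    rw [(n1 _ _ (hne a' ha') hI).1, (n1 _ _ (hne b' hb') hJ).1, e1, e2] at h1
    refine ⟨s2 / s1, div_ne_zero hs2 hs1, ?_⟩
    rw [div_pow]
    field_simp
    linear_combination h1

end Pool.Agent.Q53.CF.MV
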